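import Pool.Agent.Run7.h92.EH.Asm
import Pool.Agent.Run7.h92.EH.MEM
import Pool.Agent.Run7.h67.EH.SGN

/-!
# The form `E₈ ⊕ 10 H` arises from a class in `H^4(ℤ^8)`

The ring `H^*(ℤ^n)` is the exterior algebra of `ℤ^n`.  There is `ω ∈ H^4(ℤ^8)` such that the form
`x ⌣ y ⌣ ω = φ_ω(x, y) [T]` on `H^2(ℤ^8)` is isometric to `10 H ⊕ E₈`.
-/

namespace Pool.Agent.Run7.h92.Kept.E8PlusTenH

/-- The cohomology ring `H^*(ℤ^n)` of the `n`-torus: the exterior algebra of `ℤ^n`. -/
def Coh (n : ℕ) : Type := ExteriorAlgebra ℤ (Fin n → ℤ)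

noncomputable instance (n : ℕ) : Ring (Coh n) :=
  inferInstanceAs (Ring (ExteriorAlgebra ℤ (Fin n → ℤ)))

/-- the generators `e_i` of the exterior algebra -/
noncomputable def gen {n : ℕ} (i : Fin n) : Coh n :=
  ExteriorAlgebra.ι ℤ (Pi.single i (1 : ℤ) : Fin n → ℤ)

/-- the product of `k` generators -/
noncomputable def mono {n k : ℕ} (c : Fin k → Fin n) : Coh n := (List.ofFn fun i => gen (c i)).prod

/-- `H^k(ℤ^n)`, the degree `k` part: the additive subgroup generated by the products of `k`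
generators -/
noncomputable def H (n k : ℕ) : AddSubgroup (Coh n) :=
  AddSubgroup.closure (Set.range (mono (n := n) (k := k)))

/-- the generator `[T] = e_1 ⋯ e_n` of `H^n(ℤ^n)` -/
noncomputable def top (n : ℕ) : Coh n := mono (fun i : Fin n => i)

/-- the Gram matrix of `k H`, `H` the hyperbolic plane with Gram matrix `(0 1; 1 0)` -/
def hyperbolic (k : ℕ) : Matrix (Fin 2 × Fin k) (Fin 2 × Fin k) ℤ :=
  fun s t => if s.2 = t.2 ∧ s.1 ≠ t.1 then 1 else 0

/-- the Gram matrix of `k H ⊕ E₈`; `CartanMatrix.E₈` is Mathlib's Cartan matrix, the Gram matrix of the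
positive definite even unimodular lattice of rank 8 -/
def gram (k : ℕ) : Matrix ((Fin 2 × Fin k) ⊕ Fin 8) ((Fin 2 × Fin k) ⊕ Fin 8) ℤ :=
  Matrix.fromBlocks (hyperbolic k) 0 0 CartanMatrix.E₈

/-- `b` is a `ℤ`-basis of `H^k(ℤ^n)`: every element is an integral linear combination in exactly one
way. -/
def IsBasis {n : ℕ} (k : ℕ) {ι : Type} [Fintype ι] (b : ι → Coh n) : Prop :=
  (∀ s, b s ∈ H n k) ∧ ∀ x ∈ H n k, ∃! c : ι → ℤ, x = ∑ s, (c s : Coh n) * b s

/-- The form `φ_ω` on `H^2(ℤ^n)`, `x ⌣ y ⌣ ω = φ_ω(x, y) [T]`, is isometric over `ℤ` to the form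
with Gram matrix `G`: it has the Gram matrix `G` with respect to some `ℤ`-basis `b` of `H^2(ℤ^n)`. -/
def FormIsometric {n : ℕ} (ω : Coh n) {ι : Type} [Fintype ι] (G : Matrix ι ι ℤ) : Prop :=
  ∃ b : ι → Coh n, IsBasis 2 b ∧ ∀ s t, b s * b t * ω = (G s t : Coh n) * top n

/-- numbering -/
def num : (Fin 2 × Fin 10) ⊕ Fin 8 → Fin 28
  | Sum.inl (a, k) => ⟨2 * k.val + a.val, by omega⟩
  | Sum.inr i => ⟨20 + i.val, by omega⟩

theorem num_bij : Function.Bijective num := by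
  rw [Fintype.bijective_iff_injective_and_card]
  refine ⟨?_, by decide⟩
  rintro (⟨a, k⟩ | i) (⟨b, l⟩ | j) h
  · simp only [num, Fin.mk.injEq] at h
    have h1 : a = b := Fin.ext (by omega)
    have h2 : k = l := Fin.ext (by omega)
    rw [h1, h2]
  · simp only [num, Fin.mk.injEq] at h
    omega
  · simp only [num, Fin.mk.injEq] at h
    omega
  · simp only [num, Fin.mk.injEq] at h
    have h1 : i = j := Fin.ext (by omega)
    rw [h1]

open Pool.Agent.Run7.h92.EH

theorem check_gram : ∀ s t, gram 10 s t = mQ (num s) (num t) := by decide +kernel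

theorem mono_two (a b : Fin 8) : (g a * g b : Coh 8) ∈ H 8 2 := by
  refine AddSubgroup.subset_closure ⟨![a, b], ?_⟩
  unfold mono
  simp only [List.ofFn_succ, List.ofFn_zero, List.prod_cons, List.prod_nil, mul_one]
  rfl

theorem mono_four (a b c d : Fin 8) : (g a * g b * g c * g d : Coh 8) ∈ H 8 4 := by
  refine AddSubgroup.subset_closure ⟨![a, b, c, d], ?_⟩
  unfold mono
  simp only [List.ofFn_succ, List.ofFn_zero, List.prod_cons, List.prod_nil, mul_one]
  rw [mul_assoc (g a * g b : Coh 8), mul_assoc]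
  rfl

theorem om_mem_H : (om : Coh 8) ∈ H 8 4 := by
  unfold om
  refine list_sum_mem fun x hx => ?_
  obtain ⟨t, -, rfl⟩ := List.mem_map.1 hx
  exact AddSubgroup.zsmul_mem _ (mono_four _ _ _ _) _

theorem mem_of_H {x : Coh 8} (hx : x ∈ H 8 2) :
    (x : ExteriorAlgebra ℤ V8) ∈ (⋀[ℤ]^2 V8 : Submodule ℤ (ExteriorAlgebra ℤ V8)) := by
  have h1 : H 8 2 ≤ (⋀[ℤ]^2 V8 : Submodule ℤ (ExteriorAlgebra ℤ V8)).toAddSubgroup := by
    refine (AddSubgroup.closure_le _).2 ?_
    rintro _ ⟨c, rfl⟩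
    have h2 : (mono c : Coh 8) = (g (c 0) * g (c 1) : Coh 8) := by
      unfold mono
      simp only [List.ofFn_succ, List.ofFn_zero, List.prod_cons, List.prod_nil, mul_one]
      rfl
    rw [h2]
    show _ ∈ (LinearMap.range (ExteriorAlgebra.ι ℤ : V8 →ₗ[ℤ] _)) ^ 2
    rw [pow_two]
    exact Submodule.mul_mem_mul ⟨_, rfl⟩ ⟨_, rfl⟩
  exact h1 hx

theorem mem_H_of {x : ExteriorAlgebra ℤ V8}
    (hx : x ∈ (⋀[ℤ]^2 V8 : Submodule ℤ (ExteriorAlgebra ℤ V8))) : (x : Coh 8) ∈ H 8 2 := by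
  obtain ⟨b, hb⟩ := Pool.Agent.Run7.h67.EH.t_BAS
  have h1 := b.sum_repr ⟨x, hx⟩
  have h2 : x = ∑ k, (b.repr ⟨x, hx⟩ k) • (g (pa k) * g (pb k)) := by
    have := congrArg (Subtype.val) h1
    rw [Submodule.coe_sum] at this
    exact this.symm.trans (Finset.sum_congr rfl fun k _ => by rw [Submodule.coe_smul, hb])
  rw [h2]
  exact AddSubgroup.sum_mem _ fun k _ => AddSubgroup.zsmul_mem _ (mono_two _ _) _

theorem top_eq : (top 8 : Coh 8) = vol := by
  unfold top mono vol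
  rw [ExteriorAlgebra.ιMulti_apply]
  rfl

/-- There is a class `ω ∈ H^4(ℤ^8)` whose form is isometric to `10 H ⊕ E₈`. -/
theorem result : ∃ ω ∈ H 8 4, FormIsometric ω (gram 10) := by
  refine ⟨om, om_mem_H, ?_⟩
  obtain ⟨f, hf⟩ := t_ASM Pool.Agent.Run7.h67.EH.t_BAS Pool.Agent.Run7.h67.EH.t_SGN
  set σ := Equiv.ofBijective num num_bij with hσ
  set B : (Fin 2 × Fin 10) ⊕ Fin 8 → Coh 8 :=
    fun s => (f (Pi.single (num s) 1) : ExteriorAlgebra ℤ V8) with hB
  refine ⟨B, ⟨fun s => mem_H_of (f (Pi.single (num s) 1)).2, fun x hx => ?_⟩, fun s t => ?_⟩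
  · have hx' := mem_of_H hx
    have key : ∀ c : (Fin 2 × Fin 10) ⊕ Fin 8 → ℤ,
        ∑ s, (c s : Coh 8) * B s =
          ((f (c ∘ σ.symm) : ⋀[ℤ]^2 V8) : ExteriorAlgebra ℤ V8) := by
      intro c
      have h1 : c ∘ σ.symm = ∑ s, c s • (Pi.single (num s) (1 : ℤ) : Fin 28 → ℤ) := by
        funext j
        rw [Finset.sum_apply]
        obtain ⟨s0, rfl⟩ := σ.surjective j
        rw [Finset.sum_eq_single s0]
        · simp [hσ]
        · intro s _ hs
          have : σ s0 ≠ num s := fun h => hs (num_bij.1 (by rw [← h]; rfl))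
          simp [this]
        · intro h
          exact absurd (Finset.mem_univ _) h
      rw [h1, map_sum, Submodule.coe_sum]
      refine Finset.sum_congr rfl fun s _ => ?_
      rw [map_smul, Submodule.coe_smul]
      exact (zsmul_eq_mul _ (c s)).symm
    refine ⟨(f.symm ⟨x, hx'⟩) ∘ σ, ?_, ?_⟩
    · have : ((f.symm ⟨x, hx'⟩) ∘ σ) ∘ σ.symm = f.symm ⟨x, hx'⟩ := by
        funext j
        exact congrArg _ (σ.apply_symm_apply j)
      refine Eq.trans ?_ (key _).symm
      rw [this, LinearEquiv.apply_symm_apply]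
    · intro c hc
      replace hc := hc.trans (key c)
      have h2 : f (c ∘ σ.symm) = ⟨x, hx'⟩ := Subtype.ext hc.symm
      rw [← h2, LinearEquiv.symm_apply_apply]
      funext s
      exact congrArg c (σ.symm_apply_apply s).symm
  · have h1 := hf (Pi.single (num s) 1) (Pi.single (num t) 1)
    rw [Matrix.mulVec_single_one, single_one_dotProduct] at h1
    rw [check_gram, top_eq]
    refine Eq.trans h1 ?_
    exact zsmul_eq_mul _ _

end Pool.Agent.Run7.h92.Kept.E8PlusTenH
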